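import Pool.Agent.helper48.CG.Spec

/-!
# Project cg (MP_a87880_co): few corners are rare (FEW)
-/

set_option autoImplicit false

namespace Pool.Agent.helper48.CG

open Equiv Finset Function Pool.Agent.helper48.PP

theorem FEW_desc (n d : ℕ) (hdn : d ≤ n) (i : ℕ) (hi : i ≤ d) :
    n ^ i * d.descFactorial i ≤ d ^ i * n.descFactorial i := by
  induction i with
  | zero => simp
  | succ i ih =>
    have h1 := ih (by omega)
    have h2 : n * (d - i) ≤ d * (n - i) := by
      zify [show i ≤ d by omega, show i ≤ n by omega]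
      have h3 : (d : ℤ) * i ≤ n * i := mul_le_mul_of_nonneg_right (by exact_mod_cast hdn) (by positivity)
      nlinarith
    rw [Nat.descFactorial_succ, Nat.descFactorial_succ]
    calc n ^ (i + 1) * ((d - i) * d.descFactorial i) =
        (n * (d - i)) * (n ^ i * d.descFactorial i) := by ring
      _ ≤ (d * (n - i)) * (d ^ i * n.descFactorial i) := Nat.mul_le_mul h2 h1
      _ = _ := by ring

theorem FEW_choose (D d : ℕ) (hD : 1 ≤ D) (hd : 1 ≤ d) : D ^ d ≤ (D * d).choose d := by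
  have h := FEW_desc (D * d) d (Nat.le_mul_of_pos_left d hD) d le_rfl
  rw [Nat.descFactorial_self, Nat.descFactorial_eq_factorial_mul_choose, mul_pow] at h
  have h1 : (d ^ d * d.factorial) * D ^ d ≤ (d ^ d * d.factorial) * (D * d).choose d := by
    calc _ = D ^ d * d ^ d * d.factorial := by ring
      _ ≤ _ := h
      _ = _ := by ring
  exact Nat.le_of_mul_le_mul_left h1 (by positivity)

theorem FEW_sum (N M : ℕ) (x : ℝ) (hx : 0 < x) (hx1 : x ≤ 1) :
    (∑ i ∈ Finset.range (M + 1), (N.choose i : ℝ)) * x ^ M ≤ (1 + x) ^ N := by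
  rw [Finset.sum_mul]
  have h1 : ∑ i ∈ Finset.range (M + 1), (N.choose i : ℝ) * x ^ M ≤
      ∑ i ∈ Finset.range (M + 1), (N.choose i : ℝ) * x ^ i := by
    refine Finset.sum_le_sum fun i hi => ?_
    refine mul_le_mul_of_nonneg_left ?_ (Nat.cast_nonneg _)
    exact pow_le_pow_of_le_one hx.le hx1 (by rw [Finset.mem_range] at hi; omega)
  have h2 : ∑ i ∈ Finset.range (M + 1), (N.choose i : ℝ) * x ^ i ≤
      ∑ i ∈ Finset.range (max M N + 1), (N.choose i : ℝ) * x ^ i := by
    refine Finset.sum_le_sum_of_subset_of_nonneg ?_ fun i _ _ => by positivity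
    exact Finset.range_mono (by omega)
  have h3 : ∑ i ∈ Finset.range (max M N + 1), (N.choose i : ℝ) * x ^ i =
      ∑ i ∈ Finset.range (N + 1), (N.choose i : ℝ) * x ^ i := by
    symm
    refine Finset.sum_subset (Finset.range_mono (by omega)) fun i _ hi => ?_
    rw [Finset.mem_range, not_lt] at hi
    rw [Nat.choose_eq_zero_of_lt (by omega), Nat.cast_zero, zero_mul]
  have h4 : (1 + x) ^ N = ∑ i ∈ Finset.range (N + 1), (N.choose i : ℝ) * x ^ i := by
    rw [add_comm, add_pow]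
    refine Finset.sum_congr rfl fun i _ => ?_
    rw [one_pow]
    ring
  rw [h4, ← h3]
  exact h1.trans h2

theorem FEW_exp (D E m : ℕ) (hD : 8 ≤ D) (hE : 4 * D ≤ 2 ^ E) :
    ∑ i ∈ Finset.range (2 * m + 1), ((2 * E * D * m + 2 * E * m + 1).choose i : ℝ) ≤
      3 * 2 ^ (3 * E * m) := by
  have hD' : (8 : ℝ) ≤ D := by exact_mod_cast hD
  have hD0 : (0 : ℝ) < D := by linarith
  set x : ℝ := 1 / (4 * D) with hx
  have hx0 : 0 < x := by positivity
  have hx1 : x ≤ 1 := by
    rw [hx, div_le_one (by positivity)]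
    linarith
  have h1 := FEW_sum (2 * E * D * m + 2 * E * m + 1) (2 * m) x hx0 hx1
  have h2 : (1 + x) ^ (2 * E * D * m + 2 * E * m + 1) ≤ 3 * 2 ^ (E * m) := by
    have h3 : (1 + x) ^ (2 * E * D * m + 2 * E * m + 1) ≤
        Real.exp (x * ((2 * E * D * m + 2 * E * m + 1 : ℕ) : ℝ)) := by
      rw [mul_comm x, Real.exp_nat_mul]
      refine pow_le_pow_left₀ (by positivity) ?_ _
      rw [add_comm]
      exact Real.add_one_le_exp x
    have h4 : x * ((2 * E * D * m + 2 * E * m + 1 : ℕ) : ℝ) ≤ 1 + Real.log 2 * ((E * m : ℕ) : ℝ) := by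
      have h5 : x * ((2 * E * D * m + 2 * E * m + 1 : ℕ) : ℝ) =
          (E * m) / 2 + (E * m) / (2 * D) + 1 / (4 * D) := by
        rw [hx]
        push_cast
        field_simp
        ring
      have h6 : (0 : ℝ) ≤ (E : ℝ) * m := by positivity
      have h7 : (E * m : ℝ) / (2 * D) ≤ (E * m) / 16 := by
        apply div_le_div_of_nonneg_left h6 (by norm_num)
        linarith
      have h8 : (1 : ℝ) / (4 * D) ≤ 1 := by
        rw [div_le_one (by positivity)]
        linarith
      have h9 := Real.log_two_gt_d9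
      rw [h5]
      push_cast
      nlinarith
    calc _ ≤ _ := h3
      _ ≤ Real.exp (1 + Real.log 2 * ((E * m : ℕ) : ℝ)) := Real.exp_le_exp.2 h4
      _ = Real.exp 1 * 2 ^ (E * m) := by
        rw [Real.exp_add, mul_comm (Real.log 2), Real.exp_nat_mul, Real.exp_log (by norm_num)]
      _ ≤ 3 * 2 ^ (E * m) := by
        refine mul_le_mul_of_nonneg_right ?_ (by positivity)
        have := Real.exp_one_lt_d9
        linarith
  have h3 : (1 : ℝ) ≤ x ^ (2 * m) * 2 ^ (2 * E * m) := by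
    have h4 : (1 : ℝ) ≤ x * 2 ^ E := by
      rw [hx, one_div, ← div_eq_inv_mul, one_le_div (by positivity)]
      exact_mod_cast hE
    calc (1 : ℝ) ≤ (x * 2 ^ E) ^ (2 * m) := one_le_pow₀ h4
      _ = _ := by
        rw [mul_pow, ← pow_mul]
        congr 2
        ring
  have hS : 0 ≤ ∑ i ∈ Finset.range (2 * m + 1), ((2 * E * D * m + 2 * E * m + 1).choose i : ℝ) :=
    Finset.sum_nonneg fun _ _ => Nat.cast_nonneg _
  generalize ∑ i ∈ Finset.range (2 * m + 1), ((2 * E * D * m + 2 * E * m + 1).choose i : ℝ) = S at h1 hS ⊢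
  calc S = S * 1 := (mul_one S).symm
    _ ≤ S * (x ^ (2 * m) * 2 ^ (2 * E * m)) := mul_le_mul_of_nonneg_left h3 hS
    _ = (S * x ^ (2 * m)) * 2 ^ (2 * E * m) := by ring
    _ ≤ (3 * 2 ^ (E * m)) * 2 ^ (2 * E * m) :=
      mul_le_mul_of_nonneg_right (h1.trans h2) (by positivity)
    _ = _ := by
      rw [mul_assoc, ← pow_add]
      congr 2
      ring

theorem FEW : FEW_stmt := by
  intro s A few c θ hc hθ h1 h2 h3 hA hfew
  by_contra hcon
  push Not at hcon
  have hb1 := one_le_rg hc h1 h3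
  have hs := le_rg_pow hc h1 h2 h3
  set b := rg s with hb
  have hb0 : 0 < b := by linarith
  obtain ⟨D, hD⟩ := exists_nat_ge (8 * b ^ 2)
  have hD8 : (8 : ℝ) ≤ D := by nlinarith
  have hD8' : 8 ≤ D := by exact_mod_cast hD8
  obtain ⟨E, hE⟩ : ∃ E : ℕ, 4 * D ≤ 2 ^ E := ⟨4 * D, (Nat.lt_two_pow_self).le⟩
  have hE1 : 1 ≤ E := by
    rcases Nat.eq_zero_or_pos E with h | h
    · subst h; norm_num at hE; omega
    · exact h
  set ρ : ℝ := min (1 + θ) 8 with hρ
  have hρ1 : 1 < ρ := lt_min (by linarith) (by norm_num)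
  have hρ0 : 0 < ρ := by linarith
  have key : ∀ m : ℕ, 1 ≤ m → s (2 * E * D * m) * ρ ^ m ≤ 4 * b ^ (2 * (2 * E * D * m)) := by
    intro m hm
    have f1 := hfew (2 * E * D * m) (2 * E * m) (m - 1)
    have e1 : 2 * (m - 1 + 1) + 1 = 2 * m + 1 := by omega
    rw [e1] at f1
    have f2 := FEW_exp D E m hD8' hE
    have f3 := hs (2 * E * D * m + 2 * E * m)
    have f4 : ((D ^ (2 * E * m) : ℕ) : ℝ) ≤ ((2 * E * D * m + 1).choose (2 * E * m) : ℝ) := by
      have g1 := FEW_choose D (2 * E * m) (by omega) (by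
        have : 0 < 2 * E * m := by positivity
        omega)
      have g2 : D * (2 * E * m) = 2 * E * D * m := by ring
      rw [g2] at g1
      exact_mod_cast g1.trans (Nat.choose_le_choose _ (Nat.le_succ _))
    push_cast at f4
    have fewle : few (2 * E * D * m) (m - 1) ≤ 3 * b ^ (2 * (2 * E * D * m)) / 8 ^ m := by
      by_cases hneg : few (2 * E * D * m) (m - 1) ≤ 0
      · exact hneg.trans (by positivity)
      push Not at hneg
      have g1 : few (2 * E * D * m) (m - 1) * (D : ℝ) ^ (2 * E * m) ≤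
          b ^ (2 * (2 * E * D * m + 2 * E * m)) * (3 * 2 ^ (3 * E * m)) := by
        calc _ ≤ few (2 * E * D * m) (m - 1) * ((2 * E * D * m + 1).choose (2 * E * m) : ℝ) :=
              mul_le_mul_of_nonneg_left f4 hneg.le
          _ ≤ _ := f1
          _ ≤ _ := by
            refine mul_le_mul f3 f2 (Finset.sum_nonneg fun _ _ => Nat.cast_nonneg _) (by positivity)
      have g2 : (8 * b ^ 2) ^ (2 * E * m) ≤ (D : ℝ) ^ (2 * E * m) :=
        pow_le_pow_left₀ (by positivity) hD _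
      have g3 : few (2 * E * D * m) (m - 1) * (8 * b ^ 2) ^ (2 * E * m) ≤
          b ^ (2 * (2 * E * D * m + 2 * E * m)) * (3 * 2 ^ (3 * E * m)) :=
        (mul_le_mul_of_nonneg_left g2 hneg.le).trans g1
      have g4 : (8 * b ^ 2) ^ (2 * E * m) = (2 ^ (3 * E * m) * 2 ^ (3 * E * m)) * b ^ (2 * (2 * E * m)) := by
        rw [mul_pow, ← pow_mul, ← pow_add]
        congr 1
        have : (8 : ℝ) = 2 ^ 3 := by norm_num
        rw [this, ← pow_mul]
        congr 1
        ring
      have g5 : b ^ (2 * (2 * E * D * m + 2 * E * m)) * (3 * 2 ^ (3 * E * m)) =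
          (3 * b ^ (2 * (2 * E * D * m))) * (2 ^ (3 * E * m) * b ^ (2 * (2 * E * m))) := by
        rw [show 2 * (2 * E * D * m + 2 * E * m) = 2 * (2 * E * D * m) + 2 * (2 * E * m) by ring,
          pow_add]
        ring
      rw [g4, g5] at g3
      have g6 : (few (2 * E * D * m) (m - 1) * 2 ^ (3 * E * m)) *
          (2 ^ (3 * E * m) * b ^ (2 * (2 * E * m))) ≤
          (3 * b ^ (2 * (2 * E * D * m))) * (2 ^ (3 * E * m) * b ^ (2 * (2 * E * m))) := by
        calc _ = few (2 * E * D * m) (m - 1) *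
              ((2 ^ (3 * E * m) * 2 ^ (3 * E * m)) * b ^ (2 * (2 * E * m))) := by ring
          _ ≤ _ := g3
      have g7 := le_of_mul_le_mul_right g6 (by positivity)
      rw [le_div_iff₀ (by positivity)]
      refine le_trans (mul_le_mul_of_nonneg_left ?_ hneg.le) g7
      have : (8 : ℝ) ^ m = 2 ^ (3 * m) := by
        rw [pow_mul]
        norm_num
      rw [this]
      refine pow_le_pow_right₀ (by norm_num) ?_
      nlinarith
    have hAq := hA (2 * E * D * m) (m - 1)
    rw [Nat.sub_add_cancel hm] at hAq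
    have hAq' := hAq.trans (hcon (2 * E * D * m))
    have hB : (0 : ℝ) < b ^ (2 * (2 * E * D * m)) := by positivity
    generalize b ^ (2 * (2 * E * D * m)) = B at fewle hAq' hB ⊢
    generalize few (2 * E * D * m) (m - 1) = f at fewle hAq'
    generalize s (2 * E * D * m) = S at hAq' ⊢
    have r1 : ρ ^ m ≤ (1 + θ) ^ m := pow_le_pow_left₀ hρ0.le (min_le_left _ _) m
    have r2 : ρ ^ m ≤ 8 ^ m := pow_le_pow_left₀ hρ0.le (min_le_right _ _) m
    have hρm : 0 < ρ ^ m := by positivity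
    have k1 : f * ρ ^ m ≤ 3 * B := by
      calc f * ρ ^ m ≤ 3 * B / 8 ^ m * ρ ^ m := mul_le_mul_of_nonneg_right fewle hρm.le
        _ ≤ 3 * B / 8 ^ m * 8 ^ m := mul_le_mul_of_nonneg_left r2 (by positivity)
        _ = 3 * B := by field_simp
    have k2 : (S - f) * ρ ^ m ≤ B := by
      by_cases hsf : S - f ≤ 0
      · exact (mul_nonpos_of_nonpos_of_nonneg hsf hρm.le).trans hB.le
      · push Not at hsf
        exact (mul_le_mul_of_nonneg_left r1 hsf.le).trans hAq'
    linarith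
  -- the contradiction
  set L : ℕ := 2 * (2 * E * D) with hL
  have hL0 : (0 : ℝ) < L := by
    have : 0 < L := by positivity
    exact_mod_cast this
  set δ : ℝ := (1 - 1 / ρ) / (2 * L) with hδ
  have hρi : 1 / ρ < 1 := by rw [div_lt_one hρ0]; exact hρ1
  have hρi0 : 0 < 1 / ρ := by positivity
  have hδ0 : 0 < δ := by
    rw [hδ]
    exact div_pos (by linarith) (by positivity)
  have hLδ : L * δ = (1 - 1 / ρ) / 2 := by
    rw [hδ]
    field_simp
  have hL1 : (1 : ℝ) ≤ L := by
    have : 1 ≤ L := by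
      have : 0 < L := by positivity
      omega
    exact_mod_cast this
  have hδ1 : δ < 1 := by nlinarith
  have hr : 1 / ρ < (1 - δ) ^ L := by
    have h4 := one_add_mul_le_pow (a := -δ) (by linarith) L
    have h5 : 1 + (L : ℝ) * -δ = 1 - (1 - 1 / ρ) / 2 := by rw [← hLδ]; ring
    rw [h5] at h4
    have h6 : (1 : ℝ) + -δ = 1 - δ := by ring
    rw [h6] at h4
    linarith
  have hσ : 1 < (1 - δ) ^ L * ρ := by
    rwa [div_lt_iff₀ hρ0] at hr
  obtain ⟨κ, hκ0, -, hκ⟩ := exists_kappa h1 h2 (t := b * (1 - δ)) (by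
    exact mul_nonneg hb0.le (by linarith)) (by
    rw [← hb]
    nlinarith)
  obtain ⟨m, hm⟩ := pow_unbounded_of_one_lt (4 / κ) hσ
  have hm1 := key (m + 1) (by omega)
  have hk1 := hκ (2 * E * D * (m + 1))
  have e2 : 2 * (2 * E * D * (m + 1)) = L * (m + 1) := by rw [hL]; ring
  rw [e2] at hm1 hk1
  rw [mul_pow] at hk1
  have hbL : (0 : ℝ) < b ^ (L * (m + 1)) := by positivity
  have hρm : 0 < ρ ^ (m + 1) := by positivity
  have h7 : κ * (b ^ (L * (m + 1)) * (1 - δ) ^ (L * (m + 1))) * ρ ^ (m + 1) ≤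
      4 * b ^ (L * (m + 1)) := (mul_le_mul_of_nonneg_right hk1 hρm.le).trans hm1
  have h8 : b ^ (L * (m + 1)) * (κ * ((1 - δ) ^ L * ρ) ^ (m + 1)) ≤ b ^ (L * (m + 1)) * 4 := by
    calc _ = κ * (b ^ (L * (m + 1)) * (1 - δ) ^ (L * (m + 1))) * ρ ^ (m + 1) := by
          rw [mul_pow, ← pow_mul]
          ring
      _ ≤ _ := h7
      _ = _ := by ring
  have h9 := le_of_mul_le_mul_left h8 hbL
  have h10 : ((1 - δ) ^ L * ρ) ^ m ≤ ((1 - δ) ^ L * ρ) ^ (m + 1) :=
    pow_le_pow_right₀ hσ.le (by omega)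
  rw [div_lt_iff₀ hκ0] at hm
  nlinarith

end Pool.Agent.helper48.CG
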